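import Pool.Agent.W734.TWB.Stms

/-!
Project TWB, part TWB-CL: clusters around one particle.
-/

set_option autoImplicit false
set_option maxHeartbeats 1000000

noncomputable section

namespace Pool.Agent.W991.TWB

open MeasureTheory Set Filter Metric Pool.Agent.W734.TWB

/-- the profiles: `h` for the particle `m`, `|u|²` for the others -/
def prof {N : ℕ} (h : E3 → ℝ) (u : E3 → ℂ) (m : Fin N) (i : Fin N) (z : E3) : ℝ :=
  if i = m then h z else ‖u z‖ ^ 2

theorem wh_eq {N : ℕ} (h : E3 → ℝ) (u : E3 → ℂ) (m : Fin N) (x : Cfg N) :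
    wh h u m x = ∏ i, prof h u m i (x i) := by
  unfold wh
  rw [← Finset.mul_prod_erase Finset.univ _ (Finset.mem_univ m)]
  congr 1
  · simp [prof]
  · refine Finset.prod_congr rfl fun i hi => ?_
    simp [prof, Finset.ne_of_mem_erase hi]

theorem int_h {h : E3 → ℝ} (hh : NB h) : Integrable h := by
  obtain ⟨M, hM⟩ := hh.bdd
  have h1 : IntegrableOn h (tsupport h) := by
    refine Measure.integrableOn_of_bounded (M := M) hh.supp.isCompact.measure_lt_top.ne
      hh.meas.aestronglyMeasurable ?_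
    refine Eventually.of_forall fun x => ?_
    rw [Real.norm_eq_abs, abs_of_nonneg (hh.nonneg x)]
    exact hM x
  exact (integrableOn_iff_integrable_of_support_subset (subset_tsupport h)).1 h1

theorem cont_u {u : E3 → ℂ} (hu : Orb u) : Continuous fun z => ‖u z‖ ^ 2 :=
  (hu.diff.continuous.norm).pow 2

theorem supp_u {u : E3 → ℂ} (hu : Orb u) : HasCompactSupport fun z => ‖u z‖ ^ 2 :=
  hu.supp.comp_left (g := fun w : ℂ => ‖w‖ ^ 2) (by simp)

theorem int_u {u : E3 → ℂ} (hu : Orb u) : Integrable fun z => ‖u z‖ ^ 2 :=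
  (cont_u hu).integrable_of_hasCompactSupport (supp_u hu)

theorem bdd_u {u : E3 → ℂ} (hu : Orb u) : ∃ M : ℝ, 0 < M ∧ ∀ z, ‖u z‖ ^ 2 ≤ M := by
  obtain ⟨M, hM⟩ := (supp_u hu).exists_bound_of_continuous (cont_u hu)
  refine ⟨|M| + 1, by positivity, fun z => ?_⟩
  have h1 := hM z
  rw [Real.norm_eq_abs, abs_of_nonneg (by positivity)] at h1
  exact h1.trans ((le_abs_self M).trans (by linarith))

theorem int_prof {N : ℕ} {h : E3 → ℝ} (hh : Integrable h) {u : E3 → ℂ} (hu : Orb u) (m i : Fin N) :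
    Integrable (prof h u m i) := by
  unfold prof
  by_cases hi : i = m
  · simp only [hi, if_true]; exact hh
  · simp only [hi, if_false]; exact int_u hu

theorem prod_int_prof {N : ℕ} (h : E3 → ℝ) {u : E3 → ℂ} (hu : Orb u) (m : Fin N) :
    ∏ i, ∫ z, prof h u m i z = ∫ z, h z := by
  rw [← Finset.mul_prod_erase Finset.univ _ (Finset.mem_univ m)]
  have h1 : ∀ i ∈ Finset.univ.erase m, ∫ z, prof h u m i z = 1 := by
    intro i hi
    have : ∀ z, prof h u m i z = ‖u z‖ ^ 2 := fun z => by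
      simp [prof, Finset.ne_of_mem_erase hi]
    simp_rw [this]
    exact hu.norm
  rw [Finset.prod_congr rfl h1, Finset.prod_const_one, mul_one]
  simp [prof]

theorem int_wh {N : ℕ} {h : E3 → ℝ} (hh : Integrable h) {u : E3 → ℂ} (hu : Orb u) (m : Fin N) :
    Integrable (wh h u m) := by
  have h1 : Integrable (fun x : Cfg N => ∏ i, prof h u m i (x i)) :=
    Integrable.fintype_prod (fun i => int_prof hh hu m i)
  refine h1.congr (Eventually.of_forall fun x => ?_)
  exact (wh_eq h u m x).symm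

theorem integral_wh {N : ℕ} (h : E3 → ℝ) {u : E3 → ℂ} (hu : Orb u) (m : Fin N) :
    ∫ x : Cfg N, wh h u m x = ∫ z, h z := by
  rw [← prod_int_prof h hu m, ← integral_fintype_prod_volume_eq_prod]
  congr 1
  funext x
  exact wh_eq h u m x

theorem wh_nonneg {N : ℕ} {h : E3 → ℝ} (hh : ∀ z, 0 ≤ h z) (u : E3 → ℂ) (m : Fin N) (x : Cfg N) :
    0 ≤ wh h u m x :=
  mul_nonneg (hh _) (Finset.prod_nonneg fun _ _ => by positivity)

theorem int_wh_mul {N : ℕ} {h : E3 → ℝ} (hh : Integrable h) {u : E3 → ℂ} (hu : Orb u) (m : Fin N)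
    {G : Cfg N → ℝ} (hG : Measurable G) (hG0 : ∀ x, 0 ≤ G x) (hG1 : ∀ x, G x ≤ 1) :
    Integrable (fun x => wh h u m x * G x) := by
  refine (int_wh hh hu m).mul_bdd (c := 1) hG.aestronglyMeasurable ?_
  refine Eventually.of_forall fun x => ?_
  rw [Real.norm_eq_abs, abs_of_nonneg (hG0 x)]
  exact hG1 x

/-- insertion of a particle -/
def ins {n : ℕ} (m : Fin (n + 1)) (z : E3) (y : Cfg n) : Cfg (n + 1) :=
  Fin.insertNth (α := fun _ => E3) m z y

theorem ins_same {n : ℕ} (m : Fin (n + 1)) (z : E3) (y : Cfg n) : ins m z y m = z := by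
  unfold ins
  rw [Fin.insertNth_apply_same]

theorem ins_succ {n : ℕ} (m : Fin (n + 1)) (z : E3) (y : Cfg n) (j : Fin n) :
    ins m z y (m.succAbove j) = y j := by
  unfold ins
  rw [Fin.insertNth_apply_succAbove]

theorem pfs {n : ℕ} (m : Fin (n + 1)) {F : Cfg (n + 1) → ℝ} (hF : Integrable F) :
    ∫ x, F x = ∫ z : E3, ∫ y : Cfg n, F (ins m z y) := by
  have hem : MeasurePreserving (MeasurableEquiv.piFinSuccAbove (fun _ => E3) m).symm :=
    (volume_preserving_piFinSuccAbove (fun _ : Fin (n + 1) => E3) m).symm _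
  have e1 : ∀ p : E3 × Cfg n, (MeasurableEquiv.piFinSuccAbove (fun _ => E3) m).symm p
      = ins m p.1 p.2 := fun p => rfl
  have h1 := hem.integral_comp' F
  have h2 := (hem.integrable_comp_emb (MeasurableEquiv.measurableEmbedding _)).2 hF
  rw [← h1]
  simp_rw [e1]
  have h3 : Integrable (fun p : E3 × Cfg n => F (ins m p.1 p.2)) (volume.prod volume) := h2
  exact integral_prod _ h3

/-- product over the other particles -/
theorem prod_erase_ins {n : ℕ} (m : Fin (n + 1)) (f : Fin (n + 1) → ℝ) :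
    ∏ i ∈ Finset.univ.erase m, f i = ∏ j : Fin n, f (m.succAbove j) := by
  have h1 := Fin.prod_univ_succAbove (fun i => if i = m then 1 else f i) m
  rw [if_pos rfl, one_mul, ← Finset.mul_prod_erase Finset.univ _ (Finset.mem_univ m), if_pos rfl,
    one_mul] at h1
  have h2 : ∏ i ∈ Finset.univ.erase m, f i
      = ∏ i ∈ Finset.univ.erase m, (if i = m then 1 else f i) :=
    Finset.prod_congr rfl fun i hi => by rw [if_neg (Finset.ne_of_mem_erase hi)]
  have h3 : ∏ j : Fin n, f (m.succAbove j)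
      = ∏ j : Fin n, (if m.succAbove j = m then 1 else f (m.succAbove j)) :=
    Finset.prod_congr rfl fun j _ => by rw [if_neg (Fin.succAbove_ne m j)]
  rw [h2, h1, ← h3]

theorem wh_ins {n : ℕ} (h : E3 → ℝ) (u : E3 → ℂ) (m : Fin (n + 1)) (z : E3) (y : Cfg n) :
    wh h u m (ins m z y) = h z * ∏ j : Fin n, ‖u (y j)‖ ^ 2 := by
  unfold wh
  rw [ins_same, prod_erase_ins m fun i => ‖u (ins m z y i)‖ ^ 2]
  simp_rw [ins_succ]

/-- a factor that does not depend on the particle `m` -/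
theorem part_B {n : ℕ} {h : E3 → ℝ} (hh : Integrable h) {u : E3 → ℂ} (hu : Orb u)
    (m : Fin (n + 1)) {K : Cfg (n + 1) → ℝ} (hK : Measurable K) (hK0 : ∀ x, 0 ≤ K x)
    (hK1 : ∀ x, K x ≤ 1) (hKm : ∀ x y : Cfg (n + 1), (∀ i, i ≠ m → x i = y i) → K x = K y) :
    ∫ x, wh h u m x * K x = (∫ z, h z) * ∫ y : Cfg n, (∏ j, ‖u (y j)‖ ^ 2) * K (ins m 0 y) := by
  rw [pfs m (int_wh_mul hh hu m hK hK0 hK1), ← integral_mul_const]
  congr 1
  funext z
  rw [← integral_const_mul]
  congr 1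
  funext y
  rw [wh_ins, hKm (ins m z y) (ins m 0 y)]
  · ring
  · intro i hi
    obtain ⟨j, rfl⟩ := Fin.exists_succAbove_eq hi
    rw [ins_succ, ins_succ]

/-- the indicators of the balls -/
theorem ball_int {u : E3 → ℂ} {M : ℝ} (hM : ∀ z, ‖u z‖ ^ 2 ≤ M) {r : ℝ} (hr : 0 ≤ r) (z : E3) :
    ∫ w, ‖u w‖ ^ 2 * (if ‖z - w‖ ≤ r then 1 else 0) ≤ M * (Real.pi * 4 / 3) * r ^ 3 := by
  have hM0 : 0 ≤ M := le_trans (by positivity) (hM 0)
  have h1 : ∀ w, ‖u w‖ ^ 2 * (if ‖z - w‖ ≤ r then (1 : ℝ) else 0)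
      ≤ (closedBall z r).indicator (fun _ => M) w := by
    intro w
    by_cases hw : ‖z - w‖ ≤ r
    · rw [if_pos hw, mul_one, indicator_of_mem]
      · exact hM w
      · rw [mem_closedBall, dist_comm, dist_eq_norm]; exact hw
    · rw [if_neg hw, mul_zero]
      exact indicator_nonneg (fun _ _ => hM0) w
  have h2 : Integrable ((closedBall z r).indicator fun _ => M) :=
    (integrableOn_const (measure_closedBall_lt_top.ne)).integrable_indicator measurableSet_closedBall
  have h3 : ∫ w, (closedBall z r).indicator (fun _ => M) w = M * (Real.pi * 4 / 3) * r ^ 3 := by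
    rw [integral_indicator measurableSet_closedBall, setIntegral_const, measureReal_def,
      EuclideanSpace.volume_closedBall_fin_three, ENNReal.toReal_mul, ENNReal.toReal_pow,
      ENNReal.toReal_ofReal hr, ENNReal.toReal_ofReal (by positivity), smul_eq_mul]
    ring
  rw [← h3]
  refine integral_mono_of_nonneg (Eventually.of_forall fun w => ?_) h2 (Eventually.of_forall h1)
  show 0 ≤ ‖u w‖ ^ 2 * (if ‖z - w‖ ≤ r then (1 : ℝ) else 0)
  split_ifs <;> positivity

theorem meas_nr {N : ℕ} (r : ℝ) (m a : Fin N) : Measurable (nr r m a) := by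
  unfold nr
  refine Measurable.ite ?_ measurable_const measurable_const
  exact measurableSet_le ((measurable_pi_apply m).sub (measurable_pi_apply a)).norm
    measurable_const

theorem nr_nonneg {N : ℕ} (r : ℝ) (m a : Fin N) (x : Cfg N) : 0 ≤ nr r m a x := by
  unfold nr; split_ifs <;> norm_num

theorem nr_le {N : ℕ} (r : ℝ) (m a : Fin N) (x : Cfg N) : nr r m a x ≤ 1 := by
  unfold nr; split_ifs <;> norm_num

/-- the cluster estimate without correlations -/
theorem part_A {n : ℕ} {h : E3 → ℝ} (hh : Integrable h) (hh0 : ∀ z, 0 ≤ h z) {u : E3 → ℂ}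
    (hu : Orb u) {M : ℝ} (hM : ∀ z, ‖u z‖ ^ 2 ≤ M) (m : Fin (n + 1)) (S : Finset (Fin (n + 1)))
    (hmS : m ∉ S) (r : Fin (n + 1) → ℝ) (hr : ∀ i, 0 ≤ r i) :
    ∫ x, wh h u m x * (∏ a ∈ S, nr (r a) m a x)
      ≤ (∫ z, h z) * ∏ a ∈ S, M * (Real.pi * 4 / 3) * r a ^ 3 := by
  have hM0 : 0 ≤ M := le_trans (by positivity) (hM 0)
  have hHm : Measurable fun x : Cfg (n + 1) => ∏ a ∈ S, nr (r a) m a x :=
    Finset.measurable_prod _ fun a _ => meas_nr _ _ _
  have hH0 : ∀ x : Cfg (n + 1), 0 ≤ ∏ a ∈ S, nr (r a) m a x := fun x =>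
    Finset.prod_nonneg fun a _ => nr_nonneg _ _ _ _
  have hH1 : ∀ x : Cfg (n + 1), ∏ a ∈ S, nr (r a) m a x ≤ 1 := fun x =>
    Finset.prod_le_one (fun a _ => nr_nonneg _ _ _ _) fun a _ => nr_le _ _ _ _
  rw [pfs m (int_wh_mul hh hu m hHm hH0 hH1)]
  -- the function of one variable
  set G : Fin (n + 1) → E3 → E3 → ℝ := fun i z w =>
    ‖u w‖ ^ 2 * (if i ∈ S then (if ‖z - w‖ ≤ r i then 1 else 0) else 1) with hG
  have hprod : ∀ (f : Fin (n + 1) → ℝ), ∏ a ∈ S, f a
      = ∏ j : Fin n, (if m.succAbove j ∈ S then f (m.succAbove j) else 1) := by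
    intro f
    rw [← prod_erase_ins m fun i => if i ∈ S then f i else 1, ← Finset.prod_filter]
    refine Finset.prod_congr ?_ fun _ _ => rfl
    ext i
    simp only [Finset.mem_filter, Finset.mem_erase, Finset.mem_univ, and_true]
    constructor
    · intro hi
      exact ⟨fun h => hmS (h ▸ hi), hi⟩
    · exact fun hi => hi.2
  have h1 : ∀ z y, wh h u m (ins m z y) * (∏ a ∈ S, nr (r a) m a (ins m z y))
      = h z * ∏ j : Fin n, G (m.succAbove j) z (y j) := by
    intro z y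
    rw [wh_ins, hprod, mul_assoc, ← Finset.prod_mul_distrib]
    congr 1
    refine Finset.prod_congr rfl fun j _ => ?_
    simp only [hG, nr, ins_same, ins_succ]
  have hGint0 : ∀ i z, 0 ≤ ∫ w, G i z w := by
    intro i z
    refine integral_nonneg fun w => ?_
    simp only [hG]
    split_ifs <;> positivity
  have hGint : ∀ i z, ∫ w, G i z w ≤ if i ∈ S then M * (Real.pi * 4 / 3) * r i ^ 3 else 1 := by
    intro i z
    by_cases hi : i ∈ S
    · simp only [hG, if_pos hi]
      exact ball_int hM (hr i) z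
    · simp only [hG, if_neg hi, mul_one]
      exact hu.norm.le
  have h2 : ∀ z, ∫ y : Cfg n, wh h u m (ins m z y) * (∏ a ∈ S, nr (r a) m a (ins m z y))
      ≤ h z * ∏ a ∈ S, M * (Real.pi * 4 / 3) * r a ^ 3 := by
    intro z
    simp_rw [h1]
    rw [integral_const_mul, integral_fintype_prod_volume_eq_prod, hprod]
    refine mul_le_mul_of_nonneg_left ?_ (hh0 z)
    exact Finset.prod_le_prod (fun j _ => hGint0 _ z) fun j _ => hGint _ z
  rw [← integral_mul_const]
  refine integral_mono_of_nonneg (Eventually.of_forall fun z => ?_) (hh.mul_const _)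
    (Eventually.of_forall h2)
  exact integral_nonneg fun y => mul_nonneg (wh_nonneg hh0 u m _) (hH0 _)

theorem cl : S_IND → S_JAB → S_CL := by
  intro hIND hJAB u hu
  obtain ⟨M, hM0, hM⟩ := bdd_u hu
  refine ⟨M * (Real.pi * 4 / 3), by positivity, ?_⟩
  intro R1 R2 f1 f2 hf1 hf2 h hh N m S B hmS hmB hSB r hr
  obtain ⟨n, rfl⟩ : ∃ n, N = n + 1 := ⟨N - 1, by have := m.pos; omega⟩
  obtain ⟨J1, J2, J3, J4, -⟩ := hJAB R1 R2 f1 f2 hf1 hf2 (n + 1)
  have hhi := int_h hh
  have hI0 : 0 ≤ ∫ z, h z := integral_nonneg hh.nonneg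
  set K : Cfg (n + 1) → ℝ := fun x => (JA f1 f2 B x) ^ 2 with hK
  set H : Cfg (n + 1) → ℝ := fun x => ∏ a ∈ S, nr (r a) m a x with hH
  have hKm : Measurable K := ((J1 B).continuous.pow 2).measurable
  have hK0 : ∀ x, 0 ≤ K x := fun x => by simp only [hK]; positivity
  have hK1 : ∀ x, K x ≤ 1 := fun x => pow_le_one₀ (J2 B x).1 (J2 B x).2
  have hHm : Measurable H := Finset.measurable_prod _ fun a _ => meas_nr _ _ _
  have hH0 : ∀ x, 0 ≤ H x := fun x => Finset.prod_nonneg fun a _ => nr_nonneg _ _ _ _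
  have hH1 : ∀ x, H x ≤ 1 := fun x =>
    Finset.prod_le_one (fun a _ => nr_nonneg _ _ _ _) fun a _ => nr_le _ _ _ _
  have hHK0 : ∀ x, 0 ≤ H x * K x := fun x => mul_nonneg (hH0 x) (hK0 x)
  have hHK1 : ∀ x, H x * K x ≤ 1 := fun x => mul_le_one₀ (hH1 x) (hK0 x) (hK1 x)
  have hind := hIND (n + 1) (prof h u m) (fun i => int_prof hhi hu m i)
    (fun i x => by
      unfold prof
      split_ifs
      · exact hh.nonneg x
      · positivity) (insert m S) H K hHm hKm
    ⟨1, fun x => by rw [abs_of_nonneg (hH0 x)]; exact hH1 x⟩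
    ⟨1, fun x => by rw [abs_of_nonneg (hK0 x)]; exact hK1 x⟩
    (fun x y hxy => by
      refine Finset.prod_congr rfl fun a ha => ?_
      unfold nr
      rw [hxy m (Finset.mem_insert_self m S), hxy a (Finset.mem_insert_of_mem ha)])
    (fun x y hxy => by
      simp only [hK]
      rw [J4 B x y fun i hi => hxy i ?_]
      rw [Finset.mem_insert, not_or]
      exact ⟨fun h => hmB (h ▸ hi), Finset.disjoint_right.1 hSB hi⟩)
  rw [prod_int_prof h hu m] at hind
  simp_rw [← wh_eq] at hind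
  have hA : ∫ x, wh h u m x * H x ≤ (∫ z, h z) * ∏ a ∈ S, M * (Real.pi * 4 / 3) * r a ^ 3 :=
    part_A hhi hh.nonneg hu hM m S hmS r hr
  have hKdep : ∀ x y : Cfg (n + 1), (∀ i, i ≠ m → x i = y i) → K x = K y := by
    intro x y hxy
    simp only [hK]
    rw [J4 B x y fun i hi => hxy i fun h => hmB (h ▸ hi)]
  have hB1 := part_B hhi hu m hKm hK0 hK1 hKdep
  have hB2 := part_B (int_u hu) hu m hKm hK0 hK1 hKdep
  rw [hu.norm, one_mul] at hB2
  have hZ : ZA f1 f2 u B = ∫ x, wh (fun z => ‖u z‖ ^ 2) u m x * K x := by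
    unfold ZA
    congr 1
    funext x
    simp only [hK]
    congr 1
    unfold wu wh
    exact (Finset.mul_prod_erase Finset.univ (fun i => ‖u (x i)‖ ^ 2) (Finset.mem_univ m)).symm
  rw [← hB2, ← hZ] at hB1
  have hZ0 : 0 ≤ ZA f1 f2 u B := by
    rw [hZ]
    exact integral_nonneg fun x => mul_nonneg (wh_nonneg (fun z => by positivity) u m x) (hK0 x)
  show ∫ x : Cfg (n + 1), wh h u m x * (H x * K x) ≤ _
  have hP0 : 0 ≤ ∏ a ∈ S, M * (Real.pi * 4 / 3) * r a ^ 3 :=
    Finset.prod_nonneg fun a _ => by have := hr a; positivity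
  rcases hI0.eq_or_lt with h0 | h0
  · have h1 : ∫ x : Cfg (n + 1), wh h u m x * (H x * K x) ≤ ∫ x : Cfg (n + 1), wh h u m x := by
      refine integral_mono (int_wh_mul hhi hu m (hHm.mul hKm) hHK0 hHK1) (int_wh hhi hu m) ?_
      intro x
      exact mul_le_of_le_one_right (wh_nonneg hh.nonneg u m x) (hHK1 x)
    rw [integral_wh h hu m, ← h0] at h1
    rw [← h0, zero_mul, zero_mul]
    exact h1
  · rw [hB1] at hind
    have h1 : (∫ z, h z) * (∫ x : Cfg (n + 1), wh h u m x * (H x * K x))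
        ≤ (∫ z, h z) * ((∫ z, h z) * (∏ a ∈ S, M * (Real.pi * 4 / 3) * r a ^ 3)
          * ZA f1 f2 u B) := by
      rw [hind]
      calc (∫ x : Cfg (n + 1), wh h u m x * H x) * ((∫ z, h z) * ZA f1 f2 u B)
          ≤ ((∫ z, h z) * ∏ a ∈ S, M * (Real.pi * 4 / 3) * r a ^ 3)
            * ((∫ z, h z) * ZA f1 f2 u B) :=
            mul_le_mul_of_nonneg_right hA (mul_nonneg h0.le hZ0)
        _ = _ := by ring
    exact le_of_mul_le_mul_left h1 h0

end Pool.Agent.W991.TWB
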